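import Mathlib
import Pool.Agent.H767R2.Exist3

set_option autoImplicit false

/-!
# The Weyl system `T (x_1, ..., x_r) = (x_1 + α, x_2 + x_1, ..., x_r + x_{r-1})`
-/

namespace Pool.Agent.R204.A

open Pool.Agent.H767R2 MeasureTheory Filter Topology
open scoped ENNReal fwdDiff

/-- The shift matrix. -/
def NM (r : ℕ) : Matrix (Fin r) (Fin r) ℤ := fun i j => if (j : ℕ) + 1 = i then 1 else 0

theorem NM_pow (r k : ℕ) (i j : Fin r) : ((NM r) ^ k) i j = if (j : ℕ) + k = i then 1 else 0 := by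
  induction k generalizing i j with
  | zero =>
    rw [pow_zero, Matrix.one_apply]
    by_cases h : i = j
    · subst h; simp
    · rw [if_neg h, if_neg]
      intro h2
      exact h (Fin.ext (by omega))
  | succ k ih =>
    rw [pow_succ, Matrix.mul_apply]
    simp_rw [ih]
    by_cases h : (j : ℕ) + (k + 1) = i
    · rw [if_pos h]
      have hj : (j : ℕ) + 1 < r := by have := i.2; omega
      rw [Finset.sum_eq_single (⟨(j : ℕ) + 1, hj⟩ : Fin r)]
      · rw [if_pos (by simp only; omega), one_mul, NM, if_pos rfl]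
      · intro b _ hb
        rw [NM]
        by_cases h1 : (j : ℕ) + 1 = b
        · exact absurd (Fin.ext h1.symm) hb
        · rw [if_neg h1, mul_zero]
      · intro h1; exact absurd (Finset.mem_univ _) h1
    · rw [if_neg h]
      refine Finset.sum_eq_zero fun b _ => ?_
      rw [NM]
      by_cases h1 : (j : ℕ) + 1 = b
      · rw [if_neg (by omega), zero_mul]
      · rw [if_neg h1, mul_zero]

theorem NM_nilpotent (r : ℕ) : IsNilpotent (NM r) := by
  refine ⟨r, ?_⟩
  ext i j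
  rw [NM_pow, if_neg (by have := i.2; omega)]
  rfl

/-- The unipotent matrix. -/
def AM (r : ℕ) : Matrix (Fin r) (Fin r) ℤ := NM r + 1

theorem AM_sub (r : ℕ) : AM r - 1 = NM r := by rw [AM, add_sub_cancel_right]

/-- An affine bijection of the torus from an invertible integer matrix. -/
def affPerm {D : ℕ} (A B : Matrix (Fin D) (Fin D) ℤ) (hAB : A * B = 1) (hBA : B * A = 1)
    (b : Fin D → UnitAddCircle) : Equiv.Perm (Fin D → UnitAddCircle) where
  toFun x i := ∑ j, A i j • x j + b i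
  invFun y i := ∑ j, B i j • (y j - b j)
  left_inv x := by
    ext i
    simp only [add_sub_cancel_right, Finset.smul_sum, smul_smul]
    rw [Finset.sum_comm]
    have h1 : ∀ j, ∑ k, (B i k * A k j) • x j = ((B * A) i j) • x j := by
      intro j
      rw [Matrix.mul_apply, Finset.sum_smul]
    simp_rw [h1, hBA, Matrix.one_apply]
    simp
  right_inv y := by
    ext i
    simp only [Finset.smul_sum, smul_smul]
    rw [Finset.sum_comm]
    have h1 : ∀ j, ∑ k, (A i k * B k j) • (y j - b j) = ((A * B) i j) • (y j - b j) := by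
      intro j
      rw [Matrix.mul_apply, Finset.sum_smul]
    simp_rw [h1, hAB, Matrix.one_apply]
    simp

theorem exists_inv_of_nilpotent {D : ℕ} (A : Matrix (Fin D) (Fin D) ℤ) (h : IsNilpotent (A - 1)) :
    ∃ B : Matrix (Fin D) (Fin D) ℤ, A * B = 1 ∧ B * A = 1 := by
  have h := h.isUnit_one_add
  rw [add_sub_cancel] at h
  obtain ⟨u, hu⟩ := h
  exact ⟨↑u⁻¹, by rw [← hu]; exact u.mul_inv, by rw [← hu]; exact u.inv_mul⟩

/-- A Weyl system from its matrix and its translation. -/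
noncomputable def mkW (D : ℕ) (hD : 1 ≤ D) (A : Matrix (Fin D) (Fin D) ℤ) (h : IsNilpotent (A - 1))
    (b : Fin D → UnitAddCircle) : WeylSystem where
  D := D
  one_le := hD
  A := A
  unipotent := h
  b := b
  T := affPerm A (exists_inv_of_nilpotent A h).choose (exists_inv_of_nilpotent A h).choose_spec.1
    (exists_inv_of_nilpotent A h).choose_spec.2 b
  affine := fun _ _ => rfl

/-- `T (x_1, ..., x_r) = (x_1 + α, x_2 + x_1, ..., x_r + x_{r-1})`. -/
noncomputable def WS (r : ℕ) (hr : 1 ≤ r) (α : UnitAddCircle) : WeylSystem :=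
  mkW r hr (AM r) (by rw [AM_sub]; exact NM_nilpotent r) (fun i => if (i : ℕ) = 0 then α else 0)

/-- The transformation of `WS`, as a permutation of `Fin r → UnitAddCircle`. -/
noncomputable def TP (r : ℕ) (hr : 1 ≤ r) (α : UnitAddCircle) : Equiv.Perm (Fin r → UnitAddCircle) :=
  (WS r hr α).T

variable {r : ℕ} (hr : 1 ≤ r) (α : UnitAddCircle)

/-- The extended coordinates `α, x_1, ..., x_r`. -/
def ex (α : UnitAddCircle) (x : Fin r → UnitAddCircle) : ℕ → UnitAddCircle
  | 0 => α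
  | (l + 1) => if h : l < r then x ⟨l, h⟩ else 0

theorem sum_NM (x : Fin r → UnitAddCircle) (i : Fin r) :
    ∑ j, NM r i j • x j = if h : 0 < (i : ℕ) then x ⟨(i : ℕ) - 1, by have := i.2; omega⟩ else 0 := by
  split_ifs with h
  · rw [Finset.sum_eq_single (⟨(i : ℕ) - 1, by have := i.2; omega⟩ : Fin r)]
    · rw [NM, if_pos (by simp only; omega), one_smul]
    · intro b _ hb
      rw [NM, if_neg, zero_smul]
      intro h1
      exact hb (Fin.ext (by simp only; omega))
    · intro h1; exact absurd (Finset.mem_univ _) h1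
  · refine Finset.sum_eq_zero fun j _ => ?_
    rw [NM, if_neg (by omega), zero_smul]

theorem ex_T (x : Fin r → UnitAddCircle) (l : ℕ) (hl : l < r) :
    ex α ((TP r hr α) x) (l + 1) = ex α x (l + 1) + ex α x l := by
  have h1 : (TP r hr α) x ⟨l, hl⟩ = ∑ j, (AM r) ⟨l, hl⟩ j • x j + (if l = 0 then α else 0) := rfl
  have h2 : ∑ j, (AM r) ⟨l, hl⟩ j • x j = x ⟨l, hl⟩ + ∑ j, (NM r) ⟨l, hl⟩ j • x j := by
    rw [AM]
    simp only [Matrix.add_apply, add_smul, Finset.sum_add_distrib, Matrix.one_apply]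
    simp [add_comm]
  have h3 : ex α ((TP r hr α) x) (l + 1) = (TP r hr α) x ⟨l, hl⟩ := by
    change (if h : l < r then (TP r hr α) x ⟨l, h⟩ else 0) = _
    rw [dif_pos hl]
  have h4 : ex α x (l + 1) = x ⟨l, hl⟩ := by
    change (if h : l < r then x ⟨l, h⟩ else 0) = _
    rw [dif_pos hl]
  rw [h3, h1, h2, sum_NM, h4, add_assoc]
  congr 1
  cases l with
  | zero => simp [ex]
  | succ l =>
    rw [dif_pos (by simp), if_neg (by omega), add_zero]
    change _ = (if h : l < r then x ⟨l, h⟩ else 0)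
    rw [dif_pos (by omega)]
    rfl

/-- `F(R, x) = ∑_{l ≤ r} (Δ^l R)(0) x_l`, where `x_0 = α`. -/
def FF (α : UnitAddCircle) (R : ℤ → ℤ) (x : Fin r → UnitAddCircle) : UnitAddCircle :=
  ∑ l ∈ Finset.range (r + 1), ((fwdDiff (1 : ℤ))^[l] R 0) • ex α x l

theorem fwdDiff_iter_shift (R : ℤ → ℤ) (l : ℕ) (t : ℤ) :
    (fwdDiff (1 : ℤ))^[l] (fun s => R (s + t)) 0 = (fwdDiff (1 : ℤ))^[l] R t := by
  rw [fwdDiff_iter_comp_add, zero_add]

theorem fwdDiff_iter_succ_apply' (R : ℤ → ℤ) (l : ℕ) (t : ℤ) :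
    (fwdDiff (1 : ℤ))^[l] R (t + 1) = (fwdDiff (1 : ℤ))^[l] R t + (fwdDiff (1 : ℤ))^[l + 1] R t := by
  rw [Function.iterate_succ_apply', fwdDiff]
  ring

theorem FF_T (R : ℤ → ℤ) (hR : (fwdDiff (1 : ℤ))^[r + 1] R 0 = 0) (x : Fin r → UnitAddCircle) :
    FF α R ((TP r hr α) x) = FF α (fun s => R (s + 1)) x := by
  rw [FF, FF]
  have h1 : ∀ l, (fwdDiff (1 : ℤ))^[l] (fun s => R (s + 1)) 0
      = (fwdDiff (1 : ℤ))^[l] R 0 + (fwdDiff (1 : ℤ))^[l + 1] R 0 := by
    intro l
    rw [fwdDiff_iter_shift]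
    have := fwdDiff_iter_succ_apply' R l 0
    rwa [zero_add] at this
  simp_rw [h1, add_smul]
  rw [Finset.sum_add_distrib]
  have h2 : ∑ l ∈ Finset.range (r + 1), ((fwdDiff (1 : ℤ))^[l + 1] R 0) • ex α x l
      = ∑ l ∈ Finset.range r, ((fwdDiff (1 : ℤ))^[l + 1] R 0) • ex α x l := by
    rw [Finset.sum_range_succ, hR, zero_smul, add_zero]
  rw [h2, Finset.sum_range_succ', Finset.sum_range_succ' (fun l => ((fwdDiff (1 : ℤ))^[l] R 0) • ex α x l)]
  have h3 : ∀ l ∈ Finset.range r, ((fwdDiff (1 : ℤ))^[l + 1] R 0) • ex α ((TP r hr α) x) (l + 1)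
      = ((fwdDiff (1 : ℤ))^[l + 1] R 0) • ex α x (l + 1) + ((fwdDiff (1 : ℤ))^[l + 1] R 0) • ex α x l := by
    intro l hl
    rw [ex_T hr α x l (Finset.mem_range.mp hl), smul_add]
  rw [Finset.sum_congr rfl h3, Finset.sum_add_distrib]
  have h4 : ex α ((TP r hr α) x) 0 = ex α x 0 := rfl
  rw [h4]
  abel

/-- The iterates. -/
theorem FF_zpow (R : ℤ → ℤ) (hR : ∀ t, (fwdDiff (1 : ℤ))^[r + 1] R t = 0) (t : ℤ) (x : Fin r → UnitAddCircle) :
    FF α R (((TP r hr α) ^ t) x) = FF α (fun s => R (s + t)) x := by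
  have hsh : ∀ t, (fwdDiff (1 : ℤ))^[r + 1] (fun s => R (s + t)) 0 = 0 := fun t => by
    rw [fwdDiff_iter_shift, hR]
  induction t using Int.induction_on generalizing x with
  | zero => simp
  | succ n ih =>
    rw [zpow_add_one, Equiv.Perm.mul_apply, ih]
    rw [FF_T hr α (fun s => R (s + n)) (hsh n)]
    congr 1
    ext s
    rw [add_assoc, add_comm (1 : ℤ) n]
  | pred n ih =>
    have h1 : ((TP r hr α) ^ (-(n : ℤ) - 1)) x = ((TP r hr α) ^ (-(n : ℤ))) ((TP r hr α)⁻¹ x) := by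
      rw [zpow_sub_one, Equiv.Perm.mul_apply]
    rw [h1, ih]
    have h2 := FF_T hr α (fun s => R (s + (-(n : ℤ) - 1))) (hsh _) ((TP r hr α)⁻¹ x)
    have h3 : (TP r hr α) ((TP r hr α)⁻¹ x) = x := Equiv.apply_symm_apply (TP r hr α) x
    rw [h3] at h2
    rw [h2]
    congr 1
    ext s
    congr 1
    ring

theorem FF_add (R S : ℤ → ℤ) (x : Fin r → UnitAddCircle) :
    FF α (fun t => R t + S t) x = FF α R x + FF α S x := by
  rw [FF, FF, FF, ← Finset.sum_add_distrib]
  refine Finset.sum_congr rfl fun l _ => ?_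
  have : (fwdDiff (1 : ℤ))^[l] (fun t => R t + S t) = (fwdDiff (1 : ℤ))^[l] R + (fwdDiff (1 : ℤ))^[l] S :=
    fwdDiff_iter_add 1 R S l
  rw [this, Pi.add_apply, add_smul]

theorem FF_sum {ι : Type*} (s : Finset ι) (R : ι → ℤ → ℤ) (x : Fin r → UnitAddCircle) :
    ∑ i ∈ s, FF α (R i) x = FF α (fun t => ∑ i ∈ s, R i t) x := by
  classical
  induction s using Finset.induction_on with
  | empty =>
    simp only [Finset.sum_empty]
    rw [FF]
    refine (Finset.sum_eq_zero fun l _ => ?_).symm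
    have : ∀ l : ℕ, (fwdDiff (1 : ℤ))^[l] (fun _ : ℤ => (0 : ℤ)) = 0 := by
      intro l
      induction l with
      | zero => rfl
      | succ l ih =>
        rw [Function.iterate_succ_apply', ih]
        ext t
        simp [fwdDiff]
    rw [this l, Pi.zero_apply, zero_smul]
  | insert i s hi ih =>
    simp_rw [Finset.sum_insert hi]
    rw [ih, ← FF_add]

/-- the frequency of the character -/
def mR (r : ℕ) (R : ℤ → ℤ) : Fin r → ℤ := fun i => (fwdDiff (1 : ℤ))^[(i : ℕ) + 1] R 0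

theorem FF_eq (R : ℤ → ℤ) (x : Fin r → UnitAddCircle) : FF α R x = R 0 • α + pr (mR r R) x := by
  rw [FF, Finset.sum_range_succ', add_comm]
  congr 1
  rw [pr, Finset.sum_range]
  refine Finset.sum_congr rfl fun i _ => ?_
  rw [mR]
  congr 1
  change (if h : (i : ℕ) < r then x ⟨i, h⟩ else 0) = _
  rw [dif_pos i.2]

/-- The first component of the iterates of `U - 1`. -/
theorem vecMul_NM_pow (m : Fin r → ℤ) (k : ℕ) (j : Fin r) :
    Matrix.vecMul m ((NM r) ^ k) j = if h : (j : ℕ) + k < r then m ⟨(j : ℕ) + k, h⟩ else 0 := by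
  rw [Matrix.vecMul, dotProduct]
  simp_rw [NM_pow]
  split_ifs with h
  · rw [Finset.sum_eq_single (⟨(j : ℕ) + k, h⟩ : Fin r)]
    · rw [if_pos rfl, mul_one]
    · intro b _ hb
      rw [if_neg, mul_zero]
      intro h1
      exact hb (Fin.ext h1.symm)
    · intro h1; exact absurd (Finset.mem_univ _) h1
  · refine Finset.sum_eq_zero fun b _ => ?_
    rw [if_neg (by have := b.2; omega), mul_zero]

theorem dotb_WS (α : UnitAddCircle) (v : Fin r → ℤ) :
    (WS r hr α).dotb v = ∑ i : Fin r, (v i : ℝ) * (WS r hr α).bt i := rfl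

theorem b_WS (α : UnitAddCircle) : (WS r hr α).b (⟨0, by omega⟩ : Fin r) = α := by
  change (if ((⟨0, by omega⟩ : Fin r) : ℕ) = 0 then α else 0) = α
  rw [if_pos rfl]

theorem bt_irrational (θ : ℝ) (hθ : Irrational θ) :
    Irrational ((WS r hr (θ : UnitAddCircle)).bt (⟨0, by omega⟩ : Fin r)) := by
  have h5 : (((WS r hr (θ : UnitAddCircle)).bt (⟨0, by omega⟩ : Fin r) : ℝ) : UnitAddCircle) = (θ : UnitAddCircle) :=
    ((WS r hr (θ : UnitAddCircle)).bt_spec (⟨0, by omega⟩ : Fin r)).trans (b_WS hr _)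
  generalize (WS r hr (θ : UnitAddCircle)).bt (⟨0, by omega⟩ : Fin r) = β at h5
  have h7 : ((β - θ : ℝ) : UnitAddCircle) = 0 := by
    rw [AddCircle.coe_sub, h5, sub_self]
  rw [AddCircle.coe_eq_zero_iff] at h7
  obtain ⟨n, hn⟩ := h7
  have h8 : β = θ + (n : ℝ) := by
    rw [zsmul_eq_mul, mul_one] at hn
    rw [hn]; ring
  rw [h8]
  exact hθ.add_intCast n

include hr in
theorem sum_top (m : Fin r → ℤ) (k : ℕ) (hk : k = r - 1) (β : Fin r → ℝ) :
    ∑ i : Fin r, ((Matrix.vecMul m ((NM r) ^ k) i : ℤ) : ℝ) * β i = (m ⟨r - 1, by omega⟩ : ℝ) * β ⟨0, by omega⟩ := by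
  rw [Finset.sum_eq_single (⟨0, by omega⟩ : Fin r)]
  · have h3 := vecMul_NM_pow m k (⟨0, by omega⟩ : Fin r)
    rw [dif_pos (by simp only; omega)] at h3
    rw [h3]
    congr 3
    exact Fin.ext (by simp only; omega)
  · intro b _ hb
    have h3 := vecMul_NM_pow m k b
    have h4 : 0 < (b : ℕ) := Nat.pos_of_ne_zero fun h5 => hb (Fin.ext h5)
    rw [dif_neg (by omega)] at h3
    rw [h3, Int.cast_zero, zero_mul]
  · intro h1; exact absurd (Finset.mem_univ _) h1

/-- The character with non-zero top frequency is not in the factor of order `< r`. -/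
theorem not_Lam (θ : ℝ) (hθ : Irrational θ) (m : Fin r → ℤ) (hm : m ⟨r - 1, by omega⟩ ≠ 0) (k : ℕ) (hk : k + 1 ≤ r) :
    ¬ (WS r hr (θ : UnitAddCircle)).Lam (k + 1) (m, 0) := by
  rintro ⟨c, hc⟩
  have hA : (WS r hr (θ : UnitAddCircle)).A - 1 = NM r := AM_sub r
  rcases Nat.lt_or_ge (k + 1) r with h | h
  · have h1 : Matrix.vecMul m ((NM r) ^ (k + 1)) = 0 := by
      have h1 := congrArg Prod.fst hc
      rw [WeylSystem.Nf_iter_cs, hA] at h1
      exact h1
    have h3 := vecMul_NM_pow m (k + 1) ⟨r - 1 - (k + 1), by omega⟩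
    rw [dif_pos (by simp only; omega), h1, Pi.zero_apply] at h3
    apply hm
    have h4 : (⟨r - 1, by omega⟩ : Fin r) = ⟨r - 1 - (k + 1) + (k + 1), by omega⟩ := Fin.ext (by simp only; omega)
    rw [h4]
    exact h3.symm
  · have hkr : k = r - 1 := by omega
    have h1 : (WS r hr (θ : UnitAddCircle)).dotb (Matrix.vecMul m ((NM r) ^ k)) = c := by
      rw [Function.iterate_succ_apply', WeylSystem.Nf_cs] at hc
      have h1 := congrArg Prod.snd hc
      simp only at h1
      rw [WeylSystem.Nf_iter_cs, hA] at h1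
      exact h1
    have h2 : (WS r hr (θ : UnitAddCircle)).dotb (Matrix.vecMul m ((NM r) ^ k))
        = (m ⟨r - 1, by omega⟩ : ℝ) * (WS r hr (θ : UnitAddCircle)).bt (⟨0, by omega⟩ : Fin r) :=
      (dotb_WS hr _ _).trans (sum_top hr m k hkr _)
    have h7 := (bt_irrational hr θ hθ).intCast_mul hm
    exact h7 ⟨c, h1.symm.trans h2⟩

theorem hk_chi_zero_gen (W : WeylSystem) (k : ℕ) (m : Fin W.D → ℤ) (h1 : m ∉ W.LamSub (k + 1)) (c : ℂ) :
    H767R2.hk (haarT W.D) W.T k (fun x => c * chi m x) = 0 := by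
  have h2 := condExp_chi_zero (W.LamSub (k + 1)) m h1
  refine W.hk_zero_of_fourier k (C := ‖c‖ * 1) ((chi_bd m).const_mul c) ?_
  have h3 := condExp_smul c (chi m) (sigmaChar (W.LamSub (k + 1))) (μ := haarT W.D)
  have h4 : (fun x => c * chi m x) = c • chi m := rfl
  rw [h4]
  filter_upwards [h3, h2] with x hx hx2
  rw [hx, Pi.smul_apply, hx2, Pi.zero_apply, smul_zero]

theorem hk_chi_zero (θ : ℝ) (hθ : Irrational θ) (m : Fin r → ℤ) (hm : m ⟨r - 1, by omega⟩ ≠ 0) (k : ℕ)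
    (hk : k + 1 ≤ r) (c : ℂ) :
    H767R2.hk (haarT r) (TP r hr (θ : UnitAddCircle)) k (fun x => c * chi m x) = 0 :=
  hk_chi_zero_gen (WS r hr (θ : UnitAddCircle)) k m (not_Lam hr θ hθ m hm k hk) c

end Pool.Agent.R204.A
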