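import Mathlib
import Pool.Agent.R204.A.WSys
import Pool.Agent.H767R2.GChar
import Pool.Agent.H767R2.HKzero
import Pool.Agent.H767R2.Defs2

set_option autoImplicit false

/-!
# The exact value of `d^W_min(𝒫)`
-/

namespace Pool.Agent.R204.A

open Pool.Agent.H767R2 MeasureTheory Filter Topology Polynomial
open scoped ENNReal fwdDiff

/-- `(Q₀, (Q_p)_{p ∈ P})` is an algebraic relation of the family `P`:
`Q₀(x) + ∑_{p ∈ P} Q_p(x + p(y)) = 0` for all integers `x, y`. -/
def IsRelation (P : Finset ℤ[X]) (Q₀ : ℚ[X]) (Q : ℤ[X] → ℚ[X]) : Prop :=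
  ∀ x y : ℤ, Q₀.eval (x : ℚ) + ∑ p ∈ P, (Q p).eval ((x : ℚ) + ((p.eval y : ℤ) : ℚ)) = 0

/-- The largest degree of a polynomial `Q_p`, `p ∈ P`, occurring in an algebraic relation of `P`. -/
noncomputable def relDegree (P : Finset ℤ[X]) : ℕ :=
  sSup {d : ℕ | ∃ (Q₀ : ℚ[X]) (Q : ℤ[X] → ℚ[X]), IsRelation P Q₀ Q ∧ ∃ p ∈ P, (Q p).natDegree = d}

theorem tendsto_of_char {X : Type*} (𝒵 : MeasurableSpace X) {m₀ : MeasurableSpace X} {μ : Measure X}
    [IsProbabilityMeasure μ] {T : Equiv.Perm X} (h1 : MeasurePreserving T μ μ)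
    (h2 : MeasurePreserving T.symm μ μ) {d : ℕ} (h𝒵 : IsHKFactor 𝒵 μ T d) (P : Finset ℤ[X])
    (hchar : IsCharacteristic 𝒵 μ T P) (f : ℤ[X] → X → ℂ) (hf : ∀ p ∈ P, MemLp (f p) ∞ μ) (p : ℤ[X])
    (hp : p ∈ P) (h0 : hk μ T d (f p) = 0) :
    Tendsto (fun N : ℕ => eLpNorm (polyAvg T P f N) 2 μ) atTop (𝓝 0) := by
  have h3 := hchar f hf
  have h4 : μ[f p | 𝒵] =ᵐ[μ] 0 := (h𝒵.iff_zero _ (hf p hp)).mpr h0
  have h5 : ∀ N : ℕ, polyAvg T P (fun p => μ[f p | 𝒵]) N =ᵐ[μ] 0 := by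
    intro N
    have h6 : ∀ᵐ x ∂μ, ∀ n : ℕ, (μ[f p | 𝒵]) ((T ^ (p.eval (n : ℤ))) x) = 0 := by
      rw [ae_all_iff]
      intro n
      exact (zpow_measurePreserving T h1 h2 (p.eval (n : ℤ))).quasiMeasurePreserving.ae h4
    filter_upwards [h6] with x hx
    simp only [polyAvg, Pi.zero_apply]
    rw [Finset.sum_eq_zero, mul_zero]
    intro n _
    exact Finset.prod_eq_zero hp (hx n)
  refine h3.congr fun N => ?_
  refine eLpNorm_congr_ae ?_
  filter_upwards [h5 N] with x hx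
  rw [Pi.sub_apply, hx, Pi.zero_apply, sub_zero]

/-- If the products are a fixed function of modulus one, the averages do not tend to zero. -/
theorem not_tendsto {X : Type*} {m₀ : MeasurableSpace X} {μ : Measure X}
    [IsProbabilityMeasure μ] {T : Equiv.Perm X} (P : Finset ℤ[X]) (f : ℤ[X] → X → ℂ) (g : X → ℂ)
    (hg : ∀ x, ‖g x‖ = 1) (h : ∀ (n : ℕ) (x : X), ∏ p ∈ P, f p ((T ^ (p.eval (n : ℤ))) x) = g x) :
    ¬ Tendsto (fun N : ℕ => eLpNorm (polyAvg T P f N) 2 μ) atTop (𝓝 0) := by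
  intro hlim
  have h1 : ∀ N : ℕ, 1 ≤ N → eLpNorm (polyAvg T P f N) 2 μ = 1 := by
    intro N hN
    have h2 : polyAvg T P f N = g := by
      ext x
      simp only [polyAvg, h]
      rw [Finset.sum_const, Nat.card_Icc, Nat.add_sub_cancel, nsmul_eq_mul, ← mul_assoc, one_div,
        inv_mul_cancel₀ (by exact_mod_cast (by omega : N ≠ 0)), one_mul]
    rw [h2]
    have h3 : eLpNorm g 2 μ = eLpNorm (fun _ : X => (1 : ℂ)) 2 μ :=
      eLpNorm_congr_norm_ae (ae_of_all _ fun x => by rw [hg]; simp)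
    rw [h3, eLpNorm_const _ (by norm_num) (IsProbabilityMeasure.ne_zero μ)]
    simp
  have h2 : Tendsto (fun N : ℕ => eLpNorm (polyAvg T P f N) 2 μ) atTop (𝓝 1) :=
    tendsto_const_nhds.congr' (by
      filter_upwards [eventually_ge_atTop 1] with N hN
      exact (h1 N hN).symm)
  exact zero_ne_one (tendsto_nhds_unique hlim h2)

/-- A witness that a factor is not characteristic. -/
def Wit {X : Type*} {m₀ : MeasurableSpace X} (μ : Measure X) (T : Equiv.Perm X) (P : Finset ℤ[X]) (d : ℕ) : Prop :=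
  ∃ f : ℤ[X] → X → ℂ, (∀ p ∈ P, MemLp (f p) ∞ μ) ∧ (∃ p ∈ P, hk μ T d (f p) = 0) ∧
    ¬ Tendsto (fun N : ℕ => eLpNorm (polyAvg T P f N) 2 μ) atTop (𝓝 0)

theorem Wit.not_char {X : Type*} (𝒵 : MeasurableSpace X) {m₀ : MeasurableSpace X} {μ : Measure X}
    [IsProbabilityMeasure μ] {T : Equiv.Perm X} (h1 : MeasurePreserving T μ μ)
    (h2 : MeasurePreserving T.symm μ μ) {P : Finset ℤ[X]} {d : ℕ} (h : Wit μ T P d) (h𝒵 : IsHKFactor 𝒵 μ T d) :
    ¬ IsCharacteristic 𝒵 μ T P := by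
  intro hchar
  obtain ⟨f, hf, ⟨p, hp, h0⟩, hlim⟩ := h
  exact hlim (tendsto_of_char 𝒵 h1 h2 h𝒵 P hchar f hf p hp h0)

/-! ### Degrees in relations -/

theorem relation_le (P : Finset ℤ[X]) (hP : EssentiallyDistinct P) {Q₀ : ℚ[X]} {Q : ℤ[X] → ℚ[X]}
    (h : IsRelation P Q₀ Q) (p : ℤ[X]) (hp : p ∈ P) : (Q p).natDegree ≤ P.card - 1 := by
  classical
  by_cases hQ : Q p = 0
  · rw [hQ, natDegree_zero]; exact Nat.zero_le _
  have h0 : (0 : ℤ[X]) ∉ P := fun h0 => by
    have := hP.1 0 h0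
    rw [natDegree_zero] at this
    omega
  have hne : ∀ q ∈ P, q ≠ 0 := fun q hq h1 => h0 (h1 ▸ hq)
  have hinj : Function.Injective (Int.castRingHom ℚ) := RingHom.injective_int _
  have h1 := relation_degree (K := ℚ) (insert 0 P) (fun q => q.map (Int.castRingHom ℚ))
    (fun q => if q = 0 then Q₀ else Q q) (by
      intro a ha b hb hab
      rw [← Polynomial.map_sub, natDegree_map_eq_of_injective hinj]
      rcases Finset.mem_insert.mp ha with ha | ha <;> rcases Finset.mem_insert.mp hb with hb | hb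
      · exact absurd (ha.trans hb.symm) hab
      · rw [ha, zero_sub, natDegree_neg]; exact hP.1 b hb
      · rw [hb, sub_zero]; exact hP.1 a ha
      · exact hP.2 a ha b hb hab) (by
      intro x y
      rw [Finset.sum_insert h0]
      simp only [if_true, Polynomial.map_zero, eval_zero, add_zero]
      rw [← h x y]
      push_cast
      congr 1
      refine Finset.sum_congr rfl fun q hq => ?_
      rw [if_neg (hne q hq)]
      congr 2
      have := Polynomial.eval_map_apply (Int.castRingHom ℚ) (y : ℤ) (p := q)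
      simpa using this) p (Finset.mem_insert_of_mem hp)
  simp only [if_neg (hne p hp)] at h1
  have h2 := h1 hQ
  rw [Finset.card_insert_of_notMem h0] at h2
  omega

theorem relSet_bdd (P : Finset ℤ[X]) (hP : EssentiallyDistinct P) :
    BddAbove {d : ℕ | ∃ (Q₀ : ℚ[X]) (Q : ℤ[X] → ℚ[X]), IsRelation P Q₀ Q ∧ ∃ p ∈ P, (Q p).natDegree = d} := by
  refine ⟨P.card - 1, ?_⟩
  rintro d ⟨Q₀, Q, h, p, hp, rfl⟩
  exact relation_le P hP h p hp

theorem relSet_nonempty (P : Finset ℤ[X]) (hP : P.Nonempty) :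
    {d : ℕ | ∃ (Q₀ : ℚ[X]) (Q : ℤ[X] → ℚ[X]), IsRelation P Q₀ Q ∧ ∃ p ∈ P, (Q p).natDegree = d}.Nonempty := by
  obtain ⟨p, hp⟩ := hP
  exact ⟨0, 0, fun _ => 0, fun x y => by simp, p, hp, natDegree_zero⟩

theorem relDegree_le (P : Finset ℤ[X]) (hP : EssentiallyDistinct P) : relDegree P ≤ P.card - 1 := by
  rcases P.eq_empty_or_nonempty with h | h
  · subst h
    have : {d : ℕ | ∃ (Q₀ : ℚ[X]) (Q : ℤ[X] → ℚ[X]), IsRelation ∅ Q₀ Q ∧ ∃ p ∈ (∅ : Finset ℤ[X]), (Q p).natDegree = d}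
        = ∅ := by
      ext d; simp
    rw [relDegree, this]
    simp
  · refine csSup_le (relSet_nonempty P h) ?_
    rintro d ⟨Q₀, Q, h, p, hp, rfl⟩
    exact relation_le P hP h p hp

theorem natDegree_le_relDegree (P : Finset ℤ[X]) (hP : EssentiallyDistinct P) {Q₀ : ℚ[X]} {Q : ℤ[X] → ℚ[X]}
    (h : IsRelation P Q₀ Q) (p : ℤ[X]) (hp : p ∈ P) : (Q p).natDegree ≤ relDegree P :=
  le_csSup (relSet_bdd P hP) ⟨Q₀, Q, h, p, hp, rfl⟩

theorem exists_relDegree (P : Finset ℤ[X]) (hP : EssentiallyDistinct P) (hne : P.Nonempty) :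
    ∃ (Q₀ : ℚ[X]) (Q : ℤ[X] → ℚ[X]), IsRelation P Q₀ Q ∧ ∃ p ∈ P, (Q p).natDegree = relDegree P :=
  Nat.sSup_mem (relSet_nonempty P hne) (relSet_bdd P hP)

/-- Relations at natural numbers are relations. -/
theorem isRelation_of_nat (P : Finset ℤ[X]) (Q : ℤ[X] → ℚ[X]) (w : ℚ[X])
    (h : ∀ x y : ℕ, ∑ p ∈ P, (Q p).eval ((x : ℚ) + (p.map (Int.castRingHom ℚ)).eval (y : ℚ)) = w.eval (x : ℚ)) :
    IsRelation P (-w) Q := by
  have hinf : (Set.range (fun n : ℕ => (n : ℚ))).Infinite :=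
    Set.infinite_range_of_injective Nat.cast_injective
  have h1 : ∀ (x : ℚ) (y : ℕ), ∑ p ∈ P, (Q p).eval (x + (p.map (Int.castRingHom ℚ)).eval (y : ℚ)) = w.eval x := by
    intro x y
    have h2 : ∑ p ∈ P, Polynomial.taylor ((p.map (Int.castRingHom ℚ)).eval (y : ℚ)) (Q p) = w := by
      apply Polynomial.eq_of_infinite_eval_eq
      refine hinf.mono ?_
      rintro _ ⟨x, rfl⟩
      simp only [Set.mem_ofPred_eq, Polynomial.eval_finsetSum, Polynomial.taylor_eval]
      exact h x y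
    rw [← h2, Polynomial.eval_finsetSum]
    simp only [Polynomial.taylor_eval]
  have h2 : ∀ (x y : ℚ), ∑ p ∈ P, (Q p).eval (x + (p.map (Int.castRingHom ℚ)).eval y) = w.eval x := by
    intro x y
    have h3 : ∑ p ∈ P, (Q p).comp (C x + p.map (Int.castRingHom ℚ)) = C (w.eval x) := by
      apply Polynomial.eq_of_infinite_eval_eq
      refine hinf.mono ?_
      rintro _ ⟨y, rfl⟩
      simp only [Set.mem_ofPred_eq, Polynomial.eval_finsetSum, Polynomial.eval_comp, eval_add, eval_C]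
      exact h1 x y
    have h4 := congrArg (Polynomial.eval y) h3
    simpa only [Polynomial.eval_finsetSum, Polynomial.eval_comp, eval_add, eval_C] using h4
  intro x y
  have h3 := h2 x y
  rw [eval_neg, ← h3, neg_add_eq_zero]
  refine Finset.sum_congr rfl fun p _ => ?_
  congr 2
  have := Polynomial.eval_map_apply (Int.castRingHom ℚ) (y : ℤ) (p := p)
  simpa using this

theorem relDeg_of_le (P : Finset ℤ[X]) (hP : EssentiallyDistinct P) (D : ℕ) (hD : relDegree P ≤ D) :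
    RelDeg P (fun p => p) D := by
  intro Q w h i hi
  exact (natDegree_le_relDegree P hP (isRelation_of_nat P Q w h) i hi).trans hD

/-! ### The factor of order zero is not characteristic -/

theorem hk_zero_of_neg {X : Type*} {m₀ : MeasurableSpace X} {μ : Measure X} [IsProbabilityMeasure μ] {T : X → X}
    (hT : MeasurePreserving T μ μ) {C : ℝ} {f : X → ℂ} (hf : Bd μ C f) (h : ∀ x, f (T x) = - f x) :
    hk μ T 0 f = 0 := by
  have h1 : μ[f | MeasurableSpace.invariants T] =ᵐ[μ] 0 := by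
    refine condExp_zero_of_setIntegral (MeasurableSpace.invariants_le T) hf.integrable fun A hA => ?_
    have h2 := setIntegral_iterate hT hf 1 hA
    simp only [Function.iterate_one, h] at h2
    rw [integral_neg] at h2
    linear_combination (-1 / 2 : ℂ) * h2
  rw [hk, lintegral_eq_zero_iff' (integrable_condExp.aestronglyMeasurable.enorm.pow_const 2)]
  filter_upwards [h1] with x hx
  rw [hx]; simp

/-- The rotation by `1/2`. -/
noncomputable def WH : WeylSystem := mkW 1 le_rfl 1 (by rw [sub_self]; exact IsNilpotent.zero)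
  (fun _ => ((1 / 2 : ℝ) : UnitAddCircle))

/-- The rotation by `1/2` as a permutation. -/
noncomputable def TH : Equiv.Perm (Fin 1 → UnitAddCircle) := WH.T

theorem TH_apply (x : Fin 1 → UnitAddCircle) : TH x 0 = x 0 + ((1 / 2 : ℝ) : UnitAddCircle) := by
  have h1 : TH x 0 = ∑ j, (1 : Matrix (Fin 1) (Fin 1) ℤ) 0 j • x j + ((1 / 2 : ℝ) : UnitAddCircle) := rfl
  rw [h1]
  simp

theorem ev_half : ev ((1 / 2 : ℝ) : UnitAddCircle) = -1 := by
  rw [ev_coe, ee]
  have : (2 * (Real.pi : ℂ) * ((1 / 2 : ℝ) : ℂ) * Complex.I) = Real.pi * Complex.I := by push_cast; ring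
  rw [this, Complex.exp_pi_mul_I]

theorem ev_TH (x : Fin 1 → UnitAddCircle) : ev (TH x 0) = - ev (x 0) := by
  rw [TH_apply, ev_add, ev_half]; ring

theorem ev_TH_zpow (t : ℤ) (x : Fin 1 → UnitAddCircle) : ev ((TH ^ t) x 0) = (-1) ^ t * ev (x 0) := by
  induction t using Int.induction_on generalizing x with
  | zero => simp
  | succ n ih =>
    rw [zpow_add_one, Equiv.Perm.mul_apply, ih, ev_TH, zpow_add_one₀ (by norm_num)]
    ring
  | pred n ih =>
    have h1 : (TH ^ (-(n : ℤ) - 1)) x = (TH ^ (-(n : ℤ))) (TH⁻¹ x) := by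
      rw [zpow_sub_one, Equiv.Perm.mul_apply]
    have h2 : ev ((TH⁻¹ x) 0) = - ev (x 0) := by
      have h3 := ev_TH (TH⁻¹ x)
      have h4 : TH (TH⁻¹ x) = x := Equiv.apply_symm_apply TH x
      rw [h4] at h3
      rw [h3]; ring
    rw [h1, ih, h2, zpow_sub_one₀ (by norm_num)]
    ring

theorem exists_even_sum (P : Finset ℤ[X]) (h2 : 2 ≤ P.card) :
    ∃ S ⊆ P, S.Nonempty ∧ ∀ n : ℤ, Even (∑ p ∈ S, (p.eval n - p.eval 0)) := by
  classical
  have key : ∀ S : Finset ℤ[X], Even (∑ p ∈ S, (p.eval 1 - p.eval 0)) →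
      ∀ n : ℤ, Even (∑ p ∈ S, (p.eval n - p.eval 0)) := by
    intro S hS n
    rcases Int.even_or_odd n with hn | hn
    · refine Finset.even_sum _ fun p _ => ?_
      have h3 := Polynomial.sub_dvd_eval_sub n 0 p
      rw [sub_zero] at h3
      exact even_iff_two_dvd.mpr ((even_iff_two_dvd.mp hn).trans h3)
    · have h4 : ∑ p ∈ S, (p.eval n - p.eval 0) = ∑ p ∈ S, (p.eval n - p.eval 1)
          + ∑ p ∈ S, (p.eval 1 - p.eval 0) := by
        rw [← Finset.sum_add_distrib]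
        exact Finset.sum_congr rfl fun p _ => by ring
      rw [h4]
      refine Even.add (Finset.even_sum _ fun p _ => ?_) hS
      have h3 := Polynomial.sub_dvd_eval_sub n 1 p
      have h5 : (2 : ℤ) ∣ n - 1 := by
        obtain ⟨k, hk⟩ := hn
        exact ⟨k, by rw [hk]; ring⟩
      exact even_iff_two_dvd.mpr (h5.trans h3)
  by_cases hex : ∃ p ∈ P, Even (p.eval 1 - p.eval 0)
  · obtain ⟨p, hp, he⟩ := hex
    refine ⟨{p}, Finset.singleton_subset_iff.mpr hp, Finset.singleton_nonempty p, key _ ?_⟩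
    rw [Finset.sum_singleton]
    exact he
  · push Not at hex
    obtain ⟨p, hp, q, hq, hpq⟩ := Finset.one_lt_card.mp (show 1 < P.card by omega)
    refine ⟨{p, q}, ?_, ⟨p, Finset.mem_insert_self _ _⟩, key _ ?_⟩
    · intro a ha
      rcases Finset.mem_insert.mp ha with h | h
      · rw [h]; exact hp
      · rw [Finset.mem_singleton.mp h]; exact hq
    · rw [Finset.sum_pair hpq]
      exact (Int.not_even_iff_odd.mp (hex p hp)).add_odd (Int.not_even_iff_odd.mp (hex q hq))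

theorem wit_zero (P : Finset ℤ[X]) (h2 : 2 ≤ P.card) : Wit (haarT 1) TH P 0 := by
  classical
  obtain ⟨S, hSP, ⟨p₀, hp₀⟩, hS⟩ := exists_even_sum P h2
  have hm : Continuous fun x : Fin 1 → UnitAddCircle => ev (x 0) := continuous_ev.comp (continuous_apply 0)
  have hbd : Bd (haarT 1) 1 (fun x : Fin 1 → UnitAddCircle => ev (x 0)) :=
    ⟨hm.aestronglyMeasurable, ae_of_all _ fun x => by rw [norm_ev]⟩
  set f : ℤ[X] → (Fin 1 → UnitAddCircle) → ℂ := fun p x => if p ∈ S then ev (x 0) else 1 with hf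
  have hfbd : ∀ p, MemLp (f p) ∞ (haarT 1) := by
    intro p
    by_cases h : p ∈ S
    · have : f p = fun x => ev (x 0) := by ext x; simp only [hf]; rw [if_pos h]
      rw [this]
      exact hbd.memLp_top
    · have : f p = fun _ => 1 := by ext x; simp only [hf]; rw [if_neg h]
      rw [this]
      exact memLp_top_const _
  have hT1 : MeasurePreserving TH (haarT 1) (haarT 1) := WH.measurePreserving_T
  refine ⟨f, fun p _ => hfbd p, ⟨p₀, hSP hp₀, ?_⟩, ?_⟩
  · have : f p₀ = fun x => ev (x 0) := by ext x; simp only [hf]; rw [if_pos hp₀]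
    rw [this]
    exact hk_zero_of_neg hT1 hbd ev_TH
  refine not_tendsto P f (fun x => (-1) ^ (∑ p ∈ S, p.eval (0 : ℤ)) * ev (x 0) ^ S.card) ?_ ?_
  · intro x
    rw [norm_mul, norm_zpow, norm_neg, norm_one, one_zpow, norm_pow, norm_ev, one_pow, one_mul]
  · intro n x
    have h3 : ∏ p ∈ P, f p ((TH ^ (p.eval (n : ℤ))) x) = ∏ p ∈ S, ((-1) ^ (p.eval (n : ℤ)) * ev (x 0)) := by
      rw [← Finset.prod_subset hSP (f := fun p => f p ((TH ^ (p.eval (n : ℤ))) x))]
      · refine Finset.prod_congr rfl fun p hp => ?_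
        simp only [hf]
        rw [if_pos hp, ev_TH_zpow]
      · intro p _ hp
        simp only [hf]
        rw [if_neg hp]
    rw [h3, Finset.prod_mul_distrib, Finset.prod_const]
    congr 1
    have h4 : ∑ p ∈ S, p.eval (n : ℤ) = ∑ p ∈ S, p.eval (0 : ℤ) + ∑ p ∈ S, (p.eval (n : ℤ) - p.eval 0) := by
      rw [← Finset.sum_add_distrib]
      exact Finset.sum_congr rfl fun p _ => by ring
    have h5 : ∏ p ∈ S, ((-1 : ℂ)) ^ (p.eval (n : ℤ)) = (-1) ^ (∑ p ∈ S, p.eval (n : ℤ)) := by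
      have : ∀ s : Finset ℤ[X], ∏ p ∈ s, ((-1 : ℂ)) ^ (p.eval (n : ℤ)) = (-1) ^ (∑ p ∈ s, p.eval (n : ℤ)) := by
        intro s
        induction s using Finset.induction_on with
        | empty => simp
        | insert a s ha ih => rw [Finset.prod_insert ha, Finset.sum_insert ha, ih, zpow_add₀ (by norm_num)]
      exact this S
    rw [h5, h4, zpow_add₀ (by norm_num), (hS n).neg_one_zpow, mul_one]

/-! ### Relations give lower bounds -/

theorem exists_clear (P : Finset ℤ[X]) (Q : ℤ[X] → ℚ[X]) :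
    ∃ M : ℤ, M ≠ 0 ∧ ∀ p ∈ P, ∃ R : ℤ[X], R.map (Int.castRingHom ℚ) = C (M : ℚ) * Q p := by
  classical
  induction P using Finset.induction_on with
  | empty => exact ⟨1, one_ne_zero, fun p hp => absurd hp (Finset.notMem_empty p)⟩
  | insert a s ha ih =>
    obtain ⟨M, hM, h⟩ := ih
    obtain ⟨b, hb2, hb⟩ := IsLocalization.integerNormalization_spec (nonZeroDivisors ℤ) (Q a)
    have hb0 : (b : ℤ) ≠ 0 := nonZeroDivisors.ne_zero hb2
    have hb' : (IsLocalization.integerNormalization (nonZeroDivisors ℤ) (Q a)).map (Int.castRingHom ℚ)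
        = C ((b : ℤ) : ℚ) * Q a := by
      have h1 : (algebraMap ℤ ℚ) = Int.castRingHom ℚ := rfl
      rw [← h1, hb]
      ext i
      simp
    refine ⟨M * b, mul_ne_zero hM hb0, fun p hp => ?_⟩
    rcases Finset.mem_insert.mp hp with h1 | h1
    · subst h1
      refine ⟨C M * IsLocalization.integerNormalization (nonZeroDivisors ℤ) (Q p), ?_⟩
      rw [Polynomial.map_mul, hb', Polynomial.map_C]
      push_cast
      rw [C_mul, mul_assoc]
      rfl
    · obtain ⟨R, hR⟩ := h p h1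
      refine ⟨C (b : ℤ) * R, ?_⟩
      rw [Polynomial.map_mul, hR, Polynomial.map_C]
      push_cast
      rw [C_mul, ← mul_assoc, mul_comm (C (M : ℚ))]
      rfl

theorem wit_of_relation (P : Finset ℤ[X]) (hP : EssentiallyDistinct P) (hne : P.Nonempty) (r : ℕ)
    (hr : 1 ≤ r) (hrP : relDegree P = r) (θ : ℝ) (hθ : Irrational θ) (d : ℕ) (hd : d + 1 ≤ r) :
    Wit (haarT r) (TP r hr (θ : UnitAddCircle)) P d := by
  classical
  obtain ⟨Q₀, Q, hrel, p₀, hp₀, hdeg⟩ := exists_relDegree P hP hne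
  rw [hrP] at hdeg
  obtain ⟨M, hM, hR⟩ := exists_clear P Q
  choose! R hR using hR
  have hMQ : (M : ℚ) ≠ 0 := by exact_mod_cast hM
  have hRdeg : ∀ p ∈ P, (R p).natDegree = (Q p).natDegree := by
    intro p hp
    rw [← natDegree_map_eq_of_injective (RingHom.injective_int (Int.castRingHom ℚ)) (R p), hR p hp,
      natDegree_C_mul hMQ]
  have hRdeg' : ∀ p ∈ P, (R p).natDegree < r + 1 := by
    intro p hp
    rw [hRdeg p hp, ← hrP]
    exact Nat.lt_succ_of_le (natDegree_le_relDegree P hP hrel p hp)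
  have hdiff : ∀ p ∈ P, ∀ t : ℤ, (fwdDiff (1 : ℤ))^[r + 1] (R p).eval t = 0 := by
    intro p hp t
    rw [Polynomial.fwdDiff_iter_eq_zero_of_degree_lt (hRdeg' p hp)]
    rfl
  have heval : ∀ p ∈ P, ∀ t : ℤ, (((R p).eval t : ℤ) : ℚ) = M * (Q p).eval (t : ℚ) := by
    intro p hp t
    have h1 := Polynomial.eval_map_apply (Int.castRingHom ℚ) t (p := R p)
    rw [hR p hp] at h1
    simpa using h1.symm
  set w : ℤ → ℤ := fun t => ∑ p ∈ P, (R p).eval (t + p.eval 0) with hw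
  have hsum : ∀ (n t : ℤ), ∑ p ∈ P, (R p).eval (t + p.eval n) = w t := by
    intro n t
    have h1 : ∀ n : ℤ, ((∑ p ∈ P, (R p).eval (t + p.eval n) : ℤ) : ℚ) = - (M * Q₀.eval (t : ℚ)) := by
      intro n
      have h2 := hrel t n
      push_cast
      rw [eq_neg_iff_add_eq_zero, add_comm]
      rw [Finset.sum_congr rfl fun p hp => heval p hp (t + p.eval n), ← Finset.mul_sum, ← mul_add]
      push_cast
      rw [h2, mul_zero]
    have h3 := (h1 n).trans (h1 0).symm
    simp only [hw]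
    exact_mod_cast h3
  set T := TP r hr (θ : UnitAddCircle) with hT
  set f : ℤ[X] → (Fin r → UnitAddCircle) → ℂ := fun p x => ev (FF (θ : UnitAddCircle) (R p).eval x) with hf
  have hfeq : ∀ p, f p = fun x => ev ((R p).eval (0 : ℤ) • (θ : UnitAddCircle)) * chi (mR r (R p).eval) x := by
    intro p
    ext x
    simp only [hf]
    rw [FF_eq, ev_add]
    rfl
  have hfbd : ∀ p, MemLp (f p) ∞ (haarT r) := by
    intro p
    rw [hfeq]
    exact ((chi_bd (mR r (R p).eval)).const_mul _).memLp_top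
  refine ⟨f, fun p _ => hfbd p, ⟨p₀, hp₀, ?_⟩, ?_⟩
  · rw [hfeq]
    refine hk_chi_zero hr θ hθ _ ?_ d hd _
    rw [mR]
    have h1 : ((⟨r - 1, by omega⟩ : Fin r) : ℕ) + 1 = (R p₀).natDegree := by
      rw [hRdeg p₀ hp₀, hdeg]
      simp only
      omega
    rw [h1, Polynomial.fwdDiff_iter_degree_eq_factorial]
    have h2 : R p₀ ≠ 0 := by
      intro h0
      have := hRdeg p₀ hp₀
      rw [h0, natDegree_zero, hdeg] at this
      omega
    simp only [Pi.smul_apply, smul_eq_mul]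
    refine mul_ne_zero (leadingCoeff_ne_zero.mpr h2) ?_
    simp only [Pi.natCast_apply]
    exact_mod_cast Nat.factorial_ne_zero _
  refine not_tendsto P f (fun x => ev (FF (θ : UnitAddCircle) w x)) (fun x => norm_ev _) ?_
  intro n x
  have h1 : ∀ p ∈ P, f p ((T ^ (p.eval (n : ℤ))) x)
      = ev (FF (θ : UnitAddCircle) (fun t => (R p).eval (t + p.eval (n : ℤ))) x) := by
    intro p hp
    simp only [hf]
    rw [hT, FF_zpow hr (θ : UnitAddCircle) (R p).eval (hdiff p hp)]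
  rw [Finset.prod_congr rfl h1]
  have h2 : ∀ (s : Finset ℤ[X]) (u : ℤ[X] → UnitAddCircle), ∏ p ∈ s, ev (u p) = ev (∑ p ∈ s, u p) := by
    intro s u
    induction s using Finset.induction_on with
    | empty => rw [Finset.prod_empty, Finset.sum_empty, ev_zero]
    | insert a s ha ih => rw [Finset.prod_insert ha, Finset.sum_insert ha, ih, ev_add]
  rw [h2, FF_sum (θ : UnitAddCircle) P (fun p t => (R p).eval (t + p.eval (n : ℤ))) x]
  simp_rw [hsum]

/-! ### The exact value -/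

theorem char_of_le (P : Finset ℤ[X]) (hP : EssentiallyDistinct P) (d : ℕ) (hd : max 1 (relDegree P) ≤ d)
    (W : WeylSystem) (𝒵 : MeasurableSpace (Fin W.D → UnitAddCircle)) (h𝒵 : IsHKFactor 𝒵 (haarT W.D) W.T d) :
    IsCharacteristic 𝒵 (haarT W.D) W.T P := by
  obtain ⟨D, rfl⟩ : ∃ D, d = D + 1 := ⟨d - 1, by have := (le_max_left 1 (relDegree P)).trans hd; omega⟩
  exact characteristic_of_relDeg P D (relDeg_of_le P hP (D + 1) ((le_max_right _ _).trans hd)) W 𝒵 h𝒵

theorem not_char_of_lt (P : Finset ℤ[X]) (hP : EssentiallyDistinct P) (h2 : 2 ≤ P.card) (d : ℕ)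
    (hd : d < max 1 (relDegree P)) : ∃ W : WeylSystem, ∀ 𝒵 : MeasurableSpace (Fin W.D → UnitAddCircle),
      IsHKFactor 𝒵 (haarT W.D) W.T d → ¬ IsCharacteristic 𝒵 (haarT W.D) W.T P := by
  rcases Nat.lt_or_ge d (relDegree P) with h | h
  · have hr : 1 ≤ relDegree P := by omega
    have hne : P.Nonempty := Finset.card_pos.mp (by omega)
    have hw : Wit (haarT (WS (relDegree P) hr ((Real.sqrt 2 : ℝ) : UnitAddCircle)).D)
        (WS (relDegree P) hr ((Real.sqrt 2 : ℝ) : UnitAddCircle)).T P d :=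
      wit_of_relation P hP hne _ hr rfl (Real.sqrt 2) irrational_sqrt_two d h
    exact ⟨WS (relDegree P) hr ((Real.sqrt 2 : ℝ) : UnitAddCircle), fun 𝒵 h𝒵 =>
      hw.not_char 𝒵 (WeylSystem.measurePreserving_T _) (WeylSystem.measurePreserving_T_symm _) h𝒵⟩
  · have hd0 : d = 0 := by
      rcases lt_max_iff.mp hd with h1 | h1 <;> omega
    subst hd0
    have hw : Wit (haarT WH.D) WH.T P 0 := wit_zero P h2
    exact ⟨WH, fun 𝒵 h𝒵 =>
      hw.not_char 𝒵 (WeylSystem.measurePreserving_T _) (WeylSystem.measurePreserving_T_symm _) h𝒵⟩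

theorem dWMin_eq (P : Finset ℤ[X]) (hP : EssentiallyDistinct P) (h2 : 2 ≤ P.card) :
    dWMin P = ((max 1 (relDegree P) : ℕ) : ℕ∞) := by
  apply le_antisymm
  · refine iInf₂_le (max 1 (relDegree P)) fun W => ?_
    obtain ⟨𝒵, h𝒵⟩ := W.exists_hkFactor (max 1 (relDegree P))
    exact ⟨𝒵, h𝒵, char_of_le P hP _ le_rfl W 𝒵 h𝒵⟩
  · refine le_iInf₂ fun d hd => ?_
    by_contra hc
    push Not at hc
    have hlt : d < max 1 (relDegree P) := by exact_mod_cast hc
    obtain ⟨W, hW⟩ := not_char_of_lt P hP h2 d hlt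
    obtain ⟨𝒵, h𝒵, hchar⟩ := hd W
    exact hW 𝒵 h𝒵 hchar

end Pool.Agent.R204.A
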